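import Pool.Agent.Helper76.CV.Goals

/-!
# Project CV (MP_eec6f5_gt), packet WRC
-/

open scoped ContDiff
open Filter Topology

namespace Pool.Agent.Helper85.CV.WRC

open Pool.Agent.Helper76.CV

variable {r : ℕ}

theorem hda_euc {n : ℕ} {g : ℝ → E n} {g' : E n} {u : ℝ}
    (h : ∀ i, HasDerivAt (fun x => g x i) (g' i) u) : HasDerivAt g g' u := by
  rw [hasDerivAt_iff_hasFDerivAt, ← hasFDerivWithinAt_univ, hasFDerivWithinAt_euclidean]
  intro i
  rw [hasFDerivWithinAt_univ]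
  refine (h i).hasFDerivAt.congr_fderiv ?_
  ext
  simp

theorem hda_coord {n : ℕ} {g : ℝ → E n} {g' : E n} {u : ℝ} (h : HasDerivAt g g' u) (i : Fin n) :
    HasDerivAt (fun x => g x i) (g' i) u := by
  have := (PiLp.proj (𝕜 := ℝ) 2 (fun _ : Fin n => ℝ) i).hasFDerivAt.comp_hasDerivAt u h
  exact this

theorem first {T : ℝ → ℝ} {Y : ℝ → E (r + 3)} {u T' : ℝ} {Y' : E (r + 3)}
    (hT : HasDerivAt T T' u) (hY : HasDerivAt Y Y' u) :
    HasDerivAt (fun u' => Q (T u', Y u')) (Rf (4 / 5 * T u) Y' (wr (Y u) * T')) u := by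
  have hφ : HasDerivAt (fun u' => 4 / 5 * T u') (4 / 5 * T') u := hT.const_mul _
  have h0 := hda_coord hY 0
  have hq : HasDerivAt (fun u' => 5 / 4 + Y u' 0) (Y' 0) u := h0.const_add _
  apply hda_euc
  intro i
  refine Fin.cases ?_ (fun i => ?_) i
  · have := hq.fun_mul hφ.cos
    change HasDerivAt (fun u' => (5 / 4 + Y u' 0) * Real.cos (4 / 5 * T u'))
      (Y' 0 * Real.cos (4 / 5 * T u) - (wr (Y u) * T') * Real.sin (4 / 5 * T u)) u
    refine this.congr_deriv ?_
    simp only [wr]; ring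
  · refine Fin.cases ?_ (fun i => ?_) i
    · have := hq.fun_mul hφ.sin
      change HasDerivAt (fun u' => (5 / 4 + Y u' 0) * Real.sin (4 / 5 * T u'))
        (Y' 0 * Real.sin (4 / 5 * T u) + (wr (Y u) * T') * Real.cos (4 / 5 * T u)) u
      refine this.congr_deriv ?_
      simp only [wr]; ring
    · exact hda_coord hY i.succ

theorem e0_zero : (e0 : E (r + 3)) 0 = 1 := by simp [e0]

theorem e0_succ (i : Fin (r + 2)) : (e0 : E (r + 3)) i.succ = 0 := by simp [e0]

theorem second {T T1 : ℝ → ℝ} {Y Y1 : ℝ → E (r + 3)} {u T2 : ℝ} {Y2 : E (r + 3)}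
    (hT : HasDerivAt T (T1 u) u) (hY : HasDerivAt Y (Y1 u) u)
    (hT1 : HasDerivAt T1 T2 u) (hY1 : HasDerivAt Y1 Y2 u) :
    HasDerivAt (fun u' => Rf (4 / 5 * T u') (Y1 u') (wr (Y u') * T1 u'))
      (Rf (4 / 5 * T u) (Y2 - (4 / 5 * wr (Y u) * T1 u ^ 2) • e0)
        (wr (Y u) * T2 + 8 / 5 * T1 u * Y1 u 0)) u := by
  have hφ : HasDerivAt (fun u' => 4 / 5 * T u') (4 / 5 * T1 u) u := hT.const_mul _
  have h0 := hda_coord hY 0
  have h10 := hda_coord hY1 0
  have hw : HasDerivAt (fun u' => wr (Y u')) (4 / 5 * Y1 u 0) u :=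
    (h0.const_mul (4 / 5 : ℝ)).const_add 1
  have ho := hw.fun_mul hT1
  apply hda_euc
  intro i
  refine Fin.cases ?_ (fun i => ?_) i
  · have := (h10.fun_mul hφ.cos).fun_sub (ho.fun_mul hφ.sin)
    change HasDerivAt (fun u' => Y1 u' 0 * Real.cos (4 / 5 * T u') -
        (wr (Y u') * T1 u') * Real.sin (4 / 5 * T u'))
      ((Y2 0 - (4 / 5 * wr (Y u) * T1 u ^ 2) * (e0 : E (r + 3)) 0) * Real.cos (4 / 5 * T u) -
        (wr (Y u) * T2 + 8 / 5 * T1 u * Y1 u 0) * Real.sin (4 / 5 * T u)) u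
    refine this.congr_deriv ?_
    rw [e0_zero]; ring
  · refine Fin.cases ?_ (fun i => ?_) i
    · have := (h10.fun_mul hφ.sin).fun_add (ho.fun_mul hφ.cos)
      change HasDerivAt (fun u' => Y1 u' 0 * Real.sin (4 / 5 * T u') +
          (wr (Y u') * T1 u') * Real.cos (4 / 5 * T u'))
        ((Y2 0 - (4 / 5 * wr (Y u) * T1 u ^ 2) * (e0 : E (r + 3)) 0) * Real.sin (4 / 5 * T u) +
          (wr (Y u) * T2 + 8 / 5 * T1 u * Y1 u 0) * Real.cos (4 / 5 * T u)) u
      refine this.congr_deriv ?_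
      rw [e0_zero]; ring
    · have := hda_coord hY1 i.succ
      change HasDerivAt (fun u' => Y1 u' i.succ)
        (Y2 i.succ - (4 / 5 * wr (Y u) * T1 u ^ 2) * (e0 : E (r + 3)) i.succ) u
      refine this.congr_deriv ?_
      rw [e0_succ]; ring

theorem t : Pool.Agent.Helper76.CV.WRC := by
  intro r T Y u hT hY
  have hTe : ∀ᶠ u' in 𝓝 u, HasDerivAt T (deriv T u') u' := by
    filter_upwards [hT.eventually (by simp)] with u' h
    exact (h.differentiableAt (by simp)).hasDerivAt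
  have hYe : ∀ᶠ u' in 𝓝 u, HasDerivAt Y (deriv Y u') u' := by
    filter_upwards [hY.eventually (by simp)] with u' h
    exact (h.differentiableAt (by simp)).hasDerivAt
  have hT1 : HasDerivAt (deriv T) (deriv (deriv T) u) u :=
    ((ContDiffAt.derivWithin (m := 1) hT (by norm_num)).differentiableAt (by simp)).hasDerivAt
  have hY1 : HasDerivAt (deriv Y) (deriv (deriv Y) u) u :=
    ((ContDiffAt.derivWithin (m := 1) hY (by norm_num)).differentiableAt (by simp)).hasDerivAt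
  refine ⟨(first hTe.self_of_nhds hYe.self_of_nhds).deriv, ?_⟩
  have he : deriv (fun u' => Q (T u', Y u')) =ᶠ[𝓝 u]
      fun u' => Rf (4 / 5 * T u') (deriv Y u') (wr (Y u') * deriv T u') := by
    filter_upwards [hTe, hYe] with u' h1 h2
    exact (first h1 h2).deriv
  rw [acc, he.deriv_eq]
  exact (second hTe.self_of_nhds hYe.self_of_nhds hT1 hY1).deriv

end Pool.Agent.Helper85.CV.WRC
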